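import Pool.Agent.Asp200.Weights

/-!
# Counting recovery sets
-/

namespace Pool.Agent.Asp200

/-- the point `p` lies on the line `l` -/
def inc (l p : ZMod 13) : Prop := p = l ∨ p = l + 1 ∨ p = l + 3 ∨ p = l + 9

instance (l p : ZMod 13) : Decidable (inc l p) := by unfold inc; infer_instance

lemma inc_sub (l p q : ZMod 13) : inc l (p - q) ↔ inc (l + q) p := by
  unfold inc
  rw [sub_eq_iff_eq_add, sub_eq_iff_eq_add, sub_eq_iff_eq_add, sub_eq_iff_eq_add,
    add_right_comm l 1 q, add_right_comm l 3 q, add_right_comm l 9 q]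

lemma geo0 : ∃ l : ZMod 13, ¬ inc l 0 := by decide

lemma geo1 : ∀ x : ZMod 13, x ≠ 0 → ∃ l, inc l x ∧ ¬ inc l 0 := by decide

lemma geo2 : ∀ x y : ZMod 13, x ≠ 0 → y ≠ 0 → x ≠ y → (∀ l, inc l x → inc l y → inc l 0) →
    ((x = 1 ∨ x = 3 ∨ x = 9) ∧ (y = 1 ∨ y = 3 ∨ y = 9)) ∨
    ((x = 12 ∨ x = 2 ∨ x = 8) ∧ (y = 12 ∨ y = 2 ∨ y = 8)) ∨
    ((x = 10 ∨ x = 11 ∨ x = 6) ∧ (y = 10 ∨ y = 11 ∨ y = 6)) ∨
    ((x = 4 ∨ x = 5 ∨ x = 7) ∧ (y = 4 ∨ y = 5 ∨ y = 7)) := by
  decide +kernel

section

variable {ι : Type} [DecidableEq ι] {J : Finset ι} {p : ι → ZMod 13} {R : Fin 7 → Finset ι}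

/-- the weight of a point -/
def w (J : Finset ι) (p : ι → ZMod 13) (x : ZMod 13) : ℕ := (J.filter fun j => p j = x).card

lemma cnt (hdisj : ∀ i j, i ≠ j → Disjoint (R i) (R j)) (S : Finset (Fin 7)) (D : Finset ι)
    (f : Fin 7 → ℕ) (h : ∀ s ∈ S, f s ≤ (R s ∩ D).card) : ∑ s ∈ S, f s ≤ D.card := by
  calc ∑ s ∈ S, f s ≤ ∑ s ∈ S, (R s ∩ D).card := Finset.sum_le_sum h
    _ = (S.biUnion fun s => R s ∩ D).card := by
      rw [Finset.card_biUnion]
      intro i _ j _ hij
      exact (hdisj i j hij).mono Finset.inter_subset_left Finset.inter_subset_left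
    _ ≤ D.card := Finset.card_le_card (Finset.biUnion_subset.2 fun s _ => Finset.inter_subset_right)

lemma card_two (J : Finset ι) (p : ι → ZMod 13) (x y : ZMod 13) :
    (J.filter fun j => p j = x ∨ p j = y).card ≤ w J p x + w J p y := by
  rw [Finset.filter_or]
  exact Finset.card_union_le _ _

lemma card_three (J : Finset ι) (p : ι → ZMod 13) (x y z : ZMod 13) :
    (J.filter fun j => p j = x ∨ p j = y ∨ p j = z).card ≤ w J p x + w J p y + w J p z := by
  rw [Finset.filter_or]
  refine (Finset.card_union_le _ _).trans ?_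
  have := card_two J p y z
  unfold w at *
  omega

/-- pairs on a line -/
lemma pairs (hdisj : ∀ i j, i ≠ j → Disjoint (R i) (R j)) (hRJ : ∀ s, R s ⊆ J)
    (x y z : ZMod 13) (S : Finset (Fin 7)) (h2 : ∀ s ∈ S, (R s).card = 2)
    (hxyz : ∀ s ∈ S, ∀ j ∈ R s, p j = x ∨ p j = y ∨ p j = z)
    (hne : ∀ s ∈ S, ∀ u, ∃ j ∈ R s, p j ≠ u) : S.card ≤ mp (w J p x) (w J p y) (w J p z) := by
  have hA : 2 * S.card ≤ w J p x + w J p y + w J p z := by
    refine le_trans ?_ (card_three J p x y z)
    have := cnt hdisj S (J.filter fun j => p j = x ∨ p j = y ∨ p j = z) (fun _ => 2) fun s hs => by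
      have h3 : R s ∩ (J.filter fun j => p j = x ∨ p j = y ∨ p j = z) = R s := by
        refine Finset.inter_eq_left.2 fun j hj => Finset.mem_filter.2 ⟨hRJ s hj, hxyz s hs j hj⟩
      rw [h3, h2 s hs]
    simpa [mul_comm] using this
  have hB : ∀ u v t : ZMod 13, (∀ s ∈ S, ∀ j ∈ R s, p j = u ∨ p j = v ∨ p j = t) →
      S.card ≤ w J p u + w J p v := by
    intro u v t huvt
    refine le_trans ?_ (card_two J p u v)
    have := cnt hdisj S (J.filter fun j => p j = u ∨ p j = v) (fun _ => 1) fun s hs => by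
      obtain ⟨j, hj, hjt⟩ := hne s hs t
      refine Finset.card_pos.2 ⟨j, Finset.mem_inter.2 ⟨hj, Finset.mem_filter.2 ⟨hRJ s hj, ?_⟩⟩⟩
      rcases huvt s hs j hj with h | h | h
      · exact Or.inl h
      · exact Or.inr h
      · exact absurd h hjt
    simpa using this
  have h1 := hB x y z hxyz
  have h2 := hB y z x fun s hs j hj => by
    rcases hxyz s hs j hj with h | h | h
    · exact Or.inr (Or.inr h)
    · exact Or.inl h
    · exact Or.inr (Or.inl h)
  have h3 := hB x z y fun s hs j hj => by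
    rcases hxyz s hs j hj with h | h | h
    · exact Or.inl h
    · exact Or.inr (Or.inr h)
    · exact Or.inr (Or.inl h)
  unfold mp
  omega

/-- the inequality at the point `0` -/
lemma count_zero (hdisj : ∀ i j, i ≠ j → Disjoint (R i) (R j)) (hRJ : ∀ s, R s ⊆ J)
    (hT : ∀ s l, (∀ j ∈ R s, inc l (p j)) → inc l 0) :
    21 ≤ J.card + 2 * w J p 0 + (mp (w J p 1) (w J p 3) (w J p 9) +
      mp (w J p 12) (w J p 2) (w J p 8) + mp (w J p 10) (w J p 11) (w J p 6) +
      mp (w J p 4) (w J p 5) (w J p 7)) := by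
  classical
  let a : Fin 7 → Prop := fun s => ∃ j ∈ R s, p j = 0
  -- basic facts for the sets without an element of the class `0`
  have hne : ∀ s, ¬ a s → ∀ u, ∃ j ∈ R s, p j ≠ u := by
    intro s hs u
    by_contra hcon
    push Not at hcon
    by_cases hu : u = 0
    · have hemp : R s = ∅ := by
        rw [Finset.eq_empty_iff_forall_notMem]
        intro j hj
        exact hs ⟨j, hj, (hcon j hj).trans hu⟩
      obtain ⟨l, hl⟩ := geo0
      apply hl
      apply hT s
      rw [hemp]
      simp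
    · obtain ⟨l, hl1, hl2⟩ := geo1 u hu
      exact hl2 (hT s l fun j hj => by rw [hcon j hj]; exact hl1)
  have hcard : ∀ s, ¬ a s → 2 ≤ (R s).card := by
    intro s hs
    obtain ⟨j, hj, -⟩ := hne s hs 0
    obtain ⟨j', hj', hjj⟩ := hne s hs (p j)
    exact Finset.one_lt_card.2 ⟨j, hj, j', hj', fun h => hjj (by rw [h])⟩
  have hp0 : ∀ s, ¬ a s → ∀ j ∈ R s, p j ≠ 0 := fun s hs j hj h => hs ⟨j, hj, h⟩
  let A := Finset.univ.filter fun s => a s
  let B := Finset.univ.filter fun s => ¬ a s ∧ (R s).card = 2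
  let Bd : ZMod 13 → ZMod 13 → ZMod 13 → Finset (Fin 7) := fun x y z =>
    B.filter fun s => ∀ j ∈ R s, p j = x ∨ p j = y ∨ p j = z
  have hA : A.card ≤ w J p 0 := by
    have := cnt hdisj A (J.filter fun j => p j = 0) (fun _ => 1) fun s hs => by
      obtain ⟨j, hj, hj0⟩ := (Finset.mem_filter.1 hs).2
      exact Finset.card_pos.2 ⟨j, Finset.mem_inter.2 ⟨hj, Finset.mem_filter.2 ⟨hRJ s hj, hj0⟩⟩⟩
    simpa [w] using this
  have hBd : ∀ x y z, (Bd x y z).card ≤ mp (w J p x) (w J p y) (w J p z) := by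
    intro x y z
    refine pairs hdisj hRJ x y z (Bd x y z) ?_ ?_ ?_
    · intro s hs
      exact (Finset.mem_filter.1 (Finset.mem_filter.1 hs).1).2.2
    · intro s hs
      exact (Finset.mem_filter.1 hs).2
    · intro s hs
      exact hne s (Finset.mem_filter.1 (Finset.mem_filter.1 hs).1).2.1
  have hB : B.card ≤ (Bd 1 3 9).card + (Bd 12 2 8).card + (Bd 10 11 6).card + (Bd 4 5 7).card := by
    have hsub : B ⊆ ((Bd 1 3 9 ∪ Bd 12 2 8) ∪ Bd 10 11 6) ∪ Bd 4 5 7 := by
      intro s hs
      obtain ⟨hs1, hs2⟩ := (Finset.mem_filter.1 hs).2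
      obtain ⟨j, j', hjj, hR⟩ := Finset.card_eq_two.1 hs2
      have hj : j ∈ R s := by rw [hR]; simp
      have hj' : j' ∈ R s := by rw [hR]; simp
      have hpne : p j ≠ p j' := by
        intro h
        obtain ⟨i, hi, hi'⟩ := hne s hs1 (p j)
        rw [hR] at hi
        rcases Finset.mem_insert.1 hi with h1 | h1
        · exact hi' (by rw [h1])
        · rw [Finset.mem_singleton.1 h1] at hi'
          exact hi' h.symm
      have hgeo := geo2 (p j) (p j') (hp0 s hs1 j hj) (hp0 s hs1 j' hj') hpne fun l h1 h2 => by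
        apply hT s l
        intro i hi
        rw [hR] at hi
        rcases Finset.mem_insert.1 hi with h3 | h3
        · rw [h3]; exact h1
        · rw [Finset.mem_singleton.1 h3]; exact h2
      have hmem : ∀ x y z, (p j = x ∨ p j = y ∨ p j = z) → (p j' = x ∨ p j' = y ∨ p j' = z) →
          s ∈ Bd x y z := by
        intro x y z h1 h2
        refine Finset.mem_filter.2 ⟨hs, fun i hi => ?_⟩
        rw [hR] at hi
        rcases Finset.mem_insert.1 hi with h3 | h3
        · rw [h3]; exact h1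
        · rw [Finset.mem_singleton.1 h3]; exact h2
      simp only [Finset.mem_union]
      rcases hgeo with h | h | h | h
      · exact Or.inl (Or.inl (Or.inl (hmem _ _ _ h.1 h.2)))
      · exact Or.inl (Or.inl (Or.inr (hmem _ _ _ h.1 h.2)))
      · exact Or.inl (Or.inr (hmem _ _ _ h.1 h.2))
      · exact Or.inr (hmem _ _ _ h.1 h.2)
    have h1 := Finset.card_le_card hsub
    have h2 := Finset.card_union_le ((Bd 1 3 9 ∪ Bd 12 2 8) ∪ Bd 10 11 6) (Bd 4 5 7)
    have h3 := Finset.card_union_le (Bd 1 3 9 ∪ Bd 12 2 8) (Bd 10 11 6)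
    have h4 := Finset.card_union_le (Bd 1 3 9) (Bd 12 2 8)
    omega
  -- the elements outside the class `0`
  let f : Fin 7 → ℕ := fun s => if a s then 0 else if (R s).card = 2 then 2 else 3
  have hf : ∑ s, f s ≤ (J.filter fun j => p j ≠ 0).card := by
    refine cnt hdisj Finset.univ _ f fun s _ => ?_
    simp only [f]
    split_ifs with h1 h2
    · exact Nat.zero_le _
    · have h3 : R s ∩ (J.filter fun j => p j ≠ 0) = R s :=
        Finset.inter_eq_left.2 fun j hj => Finset.mem_filter.2 ⟨hRJ s hj, hp0 s h1 j hj⟩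
      rw [h3, h2]
    · have h3 : R s ∩ (J.filter fun j => p j ≠ 0) = R s :=
        Finset.inter_eq_left.2 fun j hj => Finset.mem_filter.2 ⟨hRJ s hj, hp0 s h1 j hj⟩
      rw [h3]
      have := hcard s h1
      omega
  have hJ : (J.filter fun j => p j ≠ 0).card + w J p 0 = J.card := by
    have := Finset.card_filter_add_card_filter_not (s := J) (fun j => p j = 0)
    change (J.filter fun j => ¬ p j = 0).card + (J.filter fun j => p j = 0).card = J.card
    omega
  have h21 : ∑ s : Fin 7, (f s + (if ¬ a s ∧ (R s).card = 2 then 1 else 0) +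
      3 * (if a s then 1 else 0)) = 21 := by
    have : ∀ s : Fin 7, (f s + (if ¬ a s ∧ (R s).card = 2 then 1 else 0) +
        3 * (if a s then 1 else 0)) = 3 := by
      intro s
      simp only [f]
      by_cases h1 : a s
      · simp [h1]
      · by_cases h2 : (R s).card = 2
        · simp [h1, h2]
        · simp [h1, h2]
    rw [Finset.sum_congr rfl fun s _ => this s]
    rfl
  rw [Finset.sum_add_distrib, Finset.sum_add_distrib, ← Finset.mul_sum, ← Finset.card_filter,
    ← Finset.card_filter] at h21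
  have e1 := hBd 1 3 9
  have e2 := hBd 12 2 8
  have e3 := hBd 10 11 6
  have e4 := hBd 4 5 7
  change ∑ s, f s + B.card + 3 * A.card = 21 at h21
  omega

/-- the inequality at the point `q` -/
lemma count_point (hdisj : ∀ i j, i ≠ j → Disjoint (R i) (R j)) (hRJ : ∀ s, R s ⊆ J)
    {q : ZMod 13} (hT : ∀ s l, (∀ j ∈ R s, inc l (p j)) → inc l q) :
    21 ≤ J.card + 2 * w J p q + pr (w J p) q := by
  have h := count_zero (p := fun j => p j - q) hdisj hRJ fun s l h => by
    have h1 := hT s (l + q) fun j hj => (inc_sub l (p j) q).1 (h j hj)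
    have h2 := (inc_sub l q q).2 h1
    rwa [sub_self] at h2
  have hw : ∀ x, w J (fun j => p j - q) x = w J p (q + x) := by
    intro x
    unfold w
    congr 1
    refine Finset.filter_congr fun j _ => ?_
    rw [sub_eq_iff_eq_add, add_comm]
  simp only [hw, add_zero] at h
  unfold pr
  exact h

/-- the inequality for a line -/
lemma count_line (hdisj : ∀ i j, i ≠ j → Disjoint (R i) (R j)) (hRJ : ∀ s, R s ⊆ J)
    {q : ZMod 13} (hT : ∀ s l, (∀ j ∈ R s, inc l (p j)) → inc l q) {l : ZMod 13}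
    (hl : ¬ inc l q) : wl (w J p) l + 7 ≤ J.card := by
  have h1 := cnt hdisj Finset.univ (J.filter fun j => ¬ inc l (p j)) (fun _ => 1) fun s _ => by
    have h2 : ∃ j ∈ R s, ¬ inc l (p j) := by
      by_contra hcon
      push Not at hcon
      exact hl (hT s l hcon)
    obtain ⟨j, hj, hj'⟩ := h2
    exact Finset.card_pos.2 ⟨j, Finset.mem_inter.2 ⟨hj, Finset.mem_filter.2 ⟨hRJ s hj, hj'⟩⟩⟩
  simp only [Finset.sum_const, Finset.card_univ, Fintype.card_fin, smul_eq_mul, mul_one] at h1
  have h2 := Finset.card_filter_add_card_filter_not (s := J) (fun j => inc l (p j))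
  have h3 : (J.filter fun j => inc l (p j)).card = wl (w J p) l := by
    rw [Finset.card_eq_sum_card_fiberwise (f := p) (t := {l, l + 1, l + 3, l + 9})]
    · have hn1 : ∀ l : ZMod 13, l ∉ ({l + 1, l + 3, l + 9} : Finset (ZMod 13)) := by decide
      have hn2 : ∀ l : ZMod 13, l + 1 ∉ ({l + 3, l + 9} : Finset (ZMod 13)) := by decide
      have hn3 : ∀ l : ZMod 13, l + 3 ∉ ({l + 9} : Finset (ZMod 13)) := by decide
      rw [Finset.sum_insert (hn1 l), Finset.sum_insert (hn2 l), Finset.sum_insert (hn3 l),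
        Finset.sum_singleton]
      have hf : ∀ x, inc l x → ((J.filter fun j => inc l (p j)).filter fun j => p j = x).card =
          w J p x := by
        intro x hx
        unfold w
        congr 1
        rw [Finset.filter_filter]
        refine Finset.filter_congr fun j _ => ?_
        constructor
        · exact fun h => h.2
        · rintro rfl; exact ⟨hx, rfl⟩
      rw [hf l (Or.inl rfl), hf _ (Or.inr (Or.inl rfl)), hf _ (Or.inr (Or.inr (Or.inl rfl))),
        hf _ (Or.inr (Or.inr (Or.inr rfl)))]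
      unfold wl
      ring
    · intro j hj
      have := (Finset.mem_filter.1 hj).2
      simpa [inc] using this
  omega

omit [DecidableEq ι] in
lemma sum_w (J : Finset ι) (p : ι → ZMod 13) : ∑ x, w J p x = J.card :=
  (Finset.card_eq_sum_card_fiberwise (f := p) (t := Finset.univ) (by simp)).symm

end

end Pool.Agent.Asp200
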