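import Mathlib

/-!
# A verified search for recovery sets

Helper file for `MP_821f63_lc`.
-/

open Matrix

namespace Pool.Agent.Asp200

section defs

variable {F : Type} [Field F]

/-- The matrix `G` (with the columns `G.col j`) serves the vectors `v 0, …, v (t - 1)`: there are
pairwise disjoint sets `R i` of columns such that `v i` is in the span of the columns in `R i`. -/
def Serves {k n t : ℕ} (G : Matrix (Fin k) (Fin n) F) (v : Fin t → Fin k → F) : Prop :=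
  ∃ R : Fin t → Finset (Fin n), (∀ i j, i ≠ j → Disjoint (R i) (R j)) ∧
    ∀ i, v i ∈ Submodule.span F (G.col '' (R i : Set (Fin n)))

/-- The `t`-all-symbol PIR property. -/
def PIR {k n : ℕ} (t : ℕ) (G : Matrix (Fin k) (Fin n) F) : Prop :=
  ∀ j, Serves G (fun _ : Fin t => G.col j)

/-- The `t`-all-symbol batch property. -/
def Batch {k n : ℕ} (t : ℕ) (G : Matrix (Fin k) (Fin n) F) : Prop :=
  ∀ a : Fin t → Fin n, Serves G (fun i => G.col (a i))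

lemma Batch.pir {k n t : ℕ} {G : Matrix (Fin k) (Fin n) F} (h : Batch t G) : PIR t G :=
  fun j => h fun _ => j

/-- the columns used by a recovery set with coefficients -/
def fsts {n : ℕ} (R : List (Fin n × F)) : List (Fin n) := R.map Prod.fst

/-- the search -/
def srv {n : ℕ} (tab : Fin n → List (List (Fin n × F))) : List (Fin n) → List (Fin n) → Bool
  | [], _ => true
  | g :: gs, used => (tab g).any fun R =>
      ((fsts R).all fun x => !(used.elem x)) && srv tab gs (fsts R ++ used)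

lemma mem_span_of_sum {k n : ℕ} {G : Matrix (Fin k) (Fin n) F} (R : List (Fin n × F))
    (s : Set (Fin n)) (hs : ∀ x ∈ fsts R, x ∈ s) :
    (R.map fun x => x.2 • G.col x.1).sum ∈ Submodule.span F (G.col '' s) := by
  refine list_sum_mem ?_
  intro v hv
  obtain ⟨x, hx, rfl⟩ := List.mem_map.1 hv
  refine Submodule.smul_mem _ _ (Submodule.subset_span ⟨x.1, hs _ ?_, rfl⟩)
  exact List.mem_map.2 ⟨x, hx, rfl⟩

lemma srv_sound {k n : ℕ} {G : Matrix (Fin k) (Fin n) F} {tab : Fin n → List (List (Fin n × F))}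
    (htab : ∀ g, ∀ R ∈ tab g, (R.map fun x => x.2 • G.col x.1).sum = G.col g) (t : ℕ) :
    ∀ (a : Fin t → Fin n) (used : List (Fin n)), srv tab (List.ofFn a) used = true →
    ∃ R : Fin t → Finset (Fin n), (∀ i j, i ≠ j → Disjoint (R i) (R j)) ∧
      (∀ i, ∀ x ∈ R i, x ∉ used) ∧
      ∀ i, G.col (a i) ∈ Submodule.span F (G.col '' (R i : Set (Fin n))) := by
  induction t with
  | zero => exact fun a used _ => ⟨fun i => i.elim0, fun i => i.elim0, fun i => i.elim0,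
      fun i => i.elim0⟩
  | succ t ih =>
    intro a used h
    rw [List.ofFn_succ] at h
    simp only [srv, List.any_eq_true, Bool.and_eq_true, List.all_eq_true, Bool.not_eq_true'] at h
    obtain ⟨R0, hR0, hused, hrec⟩ := h
    obtain ⟨R, h1, h2, h3⟩ := ih (fun i => a i.succ) _ hrec
    refine ⟨Fin.cons (fsts R0).toFinset R, ?_, ?_, ?_⟩
    · have key : ∀ i, Disjoint (fsts R0).toFinset (R i) := by
        intro i
        rw [Finset.disjoint_left]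
        intro x hx hx'
        exact h2 i x hx' (List.mem_append.2 (Or.inl (List.mem_toFinset.1 hx)))
      intro i j hij
      refine Fin.cases ?_ (fun i => ?_) i hij
      · refine Fin.cases ?_ (fun j => ?_) j
        · intro h; exact absurd rfl h
        · intro _; simpa using key j
      · refine Fin.cases ?_ (fun j => ?_) j
        · intro _; simpa using (key i).symm
        · intro h
          simpa using h1 i j fun h' => h (by rw [h'])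
    · intro i
      refine Fin.cases ?_ (fun i => ?_) i
      · intro x hx hx'
        simp only [Fin.cons_zero, List.mem_toFinset] at hx
        have := hused x hx
        simp [hx'] at this
      · intro x hx hx'
        simp only [Fin.cons_succ] at hx
        exact h2 i x hx (List.mem_append.2 (Or.inr hx'))
    · intro i
      refine Fin.cases ?_ (fun i => ?_) i
      · rw [← htab _ R0 hR0]
        refine mem_span_of_sum R0 _ fun x hx => ?_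
        simpa using hx
      · simpa using h3 i

/-- the order of the requests does not matter -/
lemma serves_perm {k n t : ℕ} {G : Matrix (Fin k) (Fin n) F} (σ : Equiv.Perm (Fin t))
    {v : Fin t → Fin k → F} (h : Serves G (v ∘ σ)) : Serves G v := by
  obtain ⟨R, h1, h2⟩ := h
  refine ⟨R ∘ σ.symm, fun i j hij => h1 _ _ fun h => hij (σ.symm.injective h), fun i => ?_⟩
  have := h2 (σ.symm i)
  simpa using this

lemma rank_of_span {n : ℕ} (G : Matrix (Fin 3) (Fin n) F)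
    (h : Submodule.span F (Set.range G.col) = ⊤) : G.rank = 3 := by
  rw [Matrix.rank_eq_finrank_span_cols, h, finrank_top]
  simp

lemma span_of_basis {n : ℕ} (G : Matrix (Fin 3) (Fin n) F)
    (h : ∀ i : Fin 3, (Pi.single i 1 : Fin 3 → F) ∈ Submodule.span F (Set.range G.col)) :
    G.rank = 3 := by
  apply rank_of_span
  rw [eq_top_iff]
  intro v _
  have : v = ∑ i, v i • (Pi.single i 1 : Fin 3 → F) := by
    ext j
    simp [Finset.sum_apply, Pi.single_apply]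
  rw [this]
  exact Submodule.sum_mem _ fun i _ => Submodule.smul_mem _ _ (h i)

end defs

/-- the affine plane of order three -/
def G9 : Matrix (Fin 3) (Fin 9) (ZMod 3) :=
  !![0, 0, 0, 1, 1, 1, 2, 2, 2; 0, 1, 2, 0, 1, 2, 0, 1, 2; 1, 1, 1, 1, 1, 1, 1, 1, 1]

/-- the recovery sets -/
def tab9 : Fin 9 → List (List (Fin 9 × ZMod 3)) := ![
  [[(0, 1)], [(1, 2), (2, 2)], [(3, 2), (6, 2)],
    [(4, 2), (8, 2)], [(5, 2), (7, 2)], [(1, 1), (3, 1), (4, 2)],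
    [(1, 1), (3, 2), (5, 1)], [(1, 2), (3, 1), (7, 1)], [(1, 1), (4, 1), (5, 2)],
    [(1, 2), (4, 1), (6, 1)], [(1, 2), (5, 1), (8, 1)], [(1, 1), (6, 1), (7, 2)],
    [(1, 1), (6, 2), (8, 1)], [(1, 1), (7, 1), (8, 2)], [(2, 1), (3, 2), (4, 1)],
    [(2, 1), (3, 1), (5, 2)], [(2, 2), (3, 1), (8, 1)], [(2, 1), (4, 2), (5, 1)],
    [(2, 2), (4, 1), (7, 1)], [(2, 2), (5, 1), (6, 1)], [(2, 1), (6, 2), (7, 1)],
    [(2, 1), (6, 1), (8, 2)], [(2, 1), (7, 2), (8, 1)], [(3, 1), (4, 1), (7, 2)],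
    [(3, 1), (5, 1), (8, 2)], [(3, 2), (7, 1), (8, 1)], [(4, 1), (5, 1), (6, 2)],
    [(4, 2), (6, 1), (7, 1)], [(5, 2), (6, 1), (8, 1)]],
  [[(1, 1)], [(0, 2), (2, 2)], [(3, 2), (8, 2)],
    [(4, 2), (7, 2)], [(5, 2), (6, 2)], [(0, 1), (3, 2), (4, 1)],
    [(0, 1), (3, 1), (5, 2)], [(0, 2), (3, 1), (7, 1)], [(0, 1), (4, 2), (5, 1)],
    [(0, 2), (4, 1), (6, 1)], [(0, 2), (5, 1), (8, 1)], [(0, 1), (6, 2), (7, 1)],
    [(0, 1), (6, 1), (8, 2)], [(0, 1), (7, 2), (8, 1)], [(2, 1), (3, 1), (4, 2)],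
    [(2, 1), (3, 2), (5, 1)], [(2, 2), (3, 1), (6, 1)], [(2, 1), (4, 1), (5, 2)],
    [(2, 2), (4, 1), (8, 1)], [(2, 2), (5, 1), (7, 1)], [(2, 1), (6, 1), (7, 2)],
    [(2, 1), (6, 2), (8, 1)], [(2, 1), (7, 1), (8, 2)], [(3, 1), (4, 1), (6, 2)],
    [(3, 1), (5, 1), (7, 2)], [(3, 2), (6, 1), (7, 1)], [(4, 1), (5, 1), (8, 2)],
    [(4, 2), (6, 1), (8, 1)], [(5, 2), (7, 1), (8, 1)]],
  [[(2, 1)], [(0, 2), (1, 2)], [(3, 2), (7, 2)],
    [(4, 2), (6, 2)], [(5, 2), (8, 2)], [(0, 1), (3, 1), (4, 2)],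
    [(0, 1), (3, 2), (5, 1)], [(0, 2), (3, 1), (8, 1)], [(0, 1), (4, 1), (5, 2)],
    [(0, 2), (4, 1), (7, 1)], [(0, 2), (5, 1), (6, 1)], [(0, 1), (6, 1), (7, 2)],
    [(0, 1), (6, 2), (8, 1)], [(0, 1), (7, 1), (8, 2)], [(1, 1), (3, 2), (4, 1)],
    [(1, 1), (3, 1), (5, 2)], [(1, 2), (3, 1), (6, 1)], [(1, 1), (4, 2), (5, 1)],
    [(1, 2), (4, 1), (8, 1)], [(1, 2), (5, 1), (7, 1)], [(1, 1), (6, 2), (7, 1)],
    [(1, 1), (6, 1), (8, 2)], [(1, 1), (7, 2), (8, 1)], [(3, 1), (4, 1), (8, 2)],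
    [(3, 1), (5, 1), (6, 2)], [(3, 2), (6, 1), (8, 1)], [(4, 1), (5, 1), (7, 2)],
    [(4, 2), (7, 1), (8, 1)], [(5, 2), (6, 1), (7, 1)]],
  [[(3, 1)], [(0, 2), (6, 2)], [(1, 2), (8, 2)],
    [(2, 2), (7, 2)], [(4, 2), (5, 2)], [(0, 1), (1, 2), (4, 1)],
    [(0, 2), (1, 1), (5, 1)], [(0, 1), (1, 1), (7, 2)], [(0, 2), (2, 1), (4, 1)],
    [(0, 1), (2, 2), (5, 1)], [(0, 1), (2, 1), (8, 2)], [(0, 1), (4, 2), (7, 1)],
    [(0, 1), (5, 2), (8, 1)], [(0, 2), (7, 1), (8, 1)], [(1, 1), (2, 2), (4, 1)],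
    [(1, 2), (2, 1), (5, 1)], [(1, 1), (2, 1), (6, 2)], [(1, 1), (4, 2), (6, 1)],
    [(1, 1), (5, 2), (7, 1)], [(1, 2), (6, 1), (7, 1)], [(2, 1), (4, 2), (8, 1)],
    [(2, 1), (5, 2), (6, 1)], [(2, 2), (6, 1), (8, 1)], [(4, 1), (6, 1), (7, 2)],
    [(4, 1), (6, 2), (8, 1)], [(4, 1), (7, 1), (8, 2)], [(5, 1), (6, 2), (7, 1)],
    [(5, 1), (6, 1), (8, 2)], [(5, 1), (7, 2), (8, 1)]],
  [[(4, 1)], [(0, 2), (8, 2)], [(1, 2), (7, 2)],
    [(2, 2), (6, 2)], [(3, 2), (5, 2)], [(0, 2), (1, 1), (3, 1)],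
    [(0, 1), (1, 2), (5, 1)], [(0, 1), (1, 1), (6, 2)], [(0, 1), (2, 2), (3, 1)],
    [(0, 2), (2, 1), (5, 1)], [(0, 1), (2, 1), (7, 2)], [(0, 1), (3, 2), (7, 1)],
    [(0, 1), (5, 2), (6, 1)], [(0, 2), (6, 1), (7, 1)], [(1, 2), (2, 1), (3, 1)],
    [(1, 1), (2, 2), (5, 1)], [(1, 1), (2, 1), (8, 2)], [(1, 1), (3, 2), (6, 1)],
    [(1, 1), (5, 2), (8, 1)], [(1, 2), (6, 1), (8, 1)], [(2, 1), (3, 2), (8, 1)],
    [(2, 1), (5, 2), (7, 1)], [(2, 2), (7, 1), (8, 1)], [(3, 1), (6, 2), (7, 1)],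
    [(3, 1), (6, 1), (8, 2)], [(3, 1), (7, 2), (8, 1)], [(5, 1), (6, 1), (7, 2)],
    [(5, 1), (6, 2), (8, 1)], [(5, 1), (7, 1), (8, 2)]],
  [[(5, 1)], [(0, 2), (7, 2)], [(1, 2), (6, 2)],
    [(2, 2), (8, 2)], [(3, 2), (4, 2)], [(0, 1), (1, 2), (3, 1)],
    [(0, 2), (1, 1), (4, 1)], [(0, 1), (1, 1), (8, 2)], [(0, 2), (2, 1), (3, 1)],
    [(0, 1), (2, 2), (4, 1)], [(0, 1), (2, 1), (6, 2)], [(0, 1), (3, 2), (8, 1)],
    [(0, 1), (4, 2), (6, 1)], [(0, 2), (6, 1), (8, 1)], [(1, 1), (2, 2), (3, 1)],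
    [(1, 2), (2, 1), (4, 1)], [(1, 1), (2, 1), (7, 2)], [(1, 1), (3, 2), (7, 1)],
    [(1, 1), (4, 2), (8, 1)], [(1, 2), (7, 1), (8, 1)], [(2, 1), (3, 2), (6, 1)],
    [(2, 1), (4, 2), (7, 1)], [(2, 2), (6, 1), (7, 1)], [(3, 1), (6, 1), (7, 2)],
    [(3, 1), (6, 2), (8, 1)], [(3, 1), (7, 1), (8, 2)], [(4, 1), (6, 2), (7, 1)],
    [(4, 1), (6, 1), (8, 2)], [(4, 1), (7, 2), (8, 1)]],
  [[(6, 1)], [(0, 2), (3, 2)], [(1, 2), (5, 2)],
    [(2, 2), (4, 2)], [(7, 2), (8, 2)], [(0, 1), (1, 1), (4, 2)],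
    [(0, 1), (1, 2), (7, 1)], [(0, 2), (1, 1), (8, 1)], [(0, 1), (2, 1), (5, 2)],
    [(0, 2), (2, 1), (7, 1)], [(0, 1), (2, 2), (8, 1)], [(0, 2), (4, 1), (5, 1)],
    [(0, 1), (4, 1), (7, 2)], [(0, 1), (5, 1), (8, 2)], [(1, 1), (2, 1), (3, 2)],
    [(1, 1), (2, 2), (7, 1)], [(1, 2), (2, 1), (8, 1)], [(1, 2), (3, 1), (4, 1)],
    [(1, 1), (3, 1), (7, 2)], [(1, 1), (4, 1), (8, 2)], [(2, 2), (3, 1), (5, 1)],
    [(2, 1), (3, 1), (8, 2)], [(2, 1), (5, 1), (7, 2)], [(3, 1), (4, 2), (7, 1)],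
    [(3, 2), (4, 1), (8, 1)], [(3, 2), (5, 1), (7, 1)], [(3, 1), (5, 2), (8, 1)],
    [(4, 1), (5, 2), (7, 1)], [(4, 2), (5, 1), (8, 1)]],
  [[(7, 1)], [(0, 2), (5, 2)], [(1, 2), (4, 2)],
    [(2, 2), (3, 2)], [(6, 2), (8, 2)], [(0, 1), (1, 1), (3, 2)],
    [(0, 2), (1, 1), (6, 1)], [(0, 1), (1, 2), (8, 1)], [(0, 1), (2, 1), (4, 2)],
    [(0, 1), (2, 2), (6, 1)], [(0, 2), (2, 1), (8, 1)], [(0, 2), (3, 1), (4, 1)],
    [(0, 1), (3, 1), (8, 2)], [(0, 1), (4, 1), (6, 2)], [(1, 1), (2, 1), (5, 2)],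
    [(1, 2), (2, 1), (6, 1)], [(1, 1), (2, 2), (8, 1)], [(1, 2), (3, 1), (5, 1)],
    [(1, 1), (3, 1), (6, 2)], [(1, 1), (5, 1), (8, 2)], [(2, 2), (4, 1), (5, 1)],
    [(2, 1), (4, 1), (8, 2)], [(2, 1), (5, 1), (6, 2)], [(3, 2), (4, 1), (6, 1)],
    [(3, 1), (4, 2), (8, 1)], [(3, 1), (5, 2), (6, 1)], [(3, 2), (5, 1), (8, 1)],
    [(4, 2), (5, 1), (6, 1)], [(4, 1), (5, 2), (8, 1)]],
  [[(8, 1)], [(0, 2), (4, 2)], [(1, 2), (3, 2)],
    [(2, 2), (5, 2)], [(6, 2), (7, 2)], [(0, 1), (1, 1), (5, 2)],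
    [(0, 1), (1, 2), (6, 1)], [(0, 2), (1, 1), (7, 1)], [(0, 1), (2, 1), (3, 2)],
    [(0, 2), (2, 1), (6, 1)], [(0, 1), (2, 2), (7, 1)], [(0, 2), (3, 1), (5, 1)],
    [(0, 1), (3, 1), (7, 2)], [(0, 1), (5, 1), (6, 2)], [(1, 1), (2, 1), (4, 2)],
    [(1, 1), (2, 2), (6, 1)], [(1, 2), (2, 1), (7, 1)], [(1, 2), (4, 1), (5, 1)],
    [(1, 1), (4, 1), (6, 2)], [(1, 1), (5, 1), (7, 2)], [(2, 2), (3, 1), (4, 1)],
    [(2, 1), (3, 1), (6, 2)], [(2, 1), (4, 1), (7, 2)], [(3, 1), (4, 2), (6, 1)],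
    [(3, 2), (4, 1), (7, 1)], [(3, 2), (5, 1), (6, 1)], [(3, 1), (5, 2), (7, 1)],
    [(4, 1), (5, 2), (6, 1)], [(4, 2), (5, 1), (7, 1)]]]

/-- four columns -/
def G4 : Matrix (Fin 3) (Fin 4) (ZMod 3) := !![1, 0, 0, 1; 0, 1, 0, 1; 0, 0, 1, 1]

/-- the recovery sets -/
def tab4 : Fin 4 → List (List (Fin 4 × ZMod 3)) := ![
  [[(0, 1)], [(1, 2), (2, 2), (3, 1)]],
  [[(1, 1)], [(0, 2), (2, 2), (3, 1)]],
  [[(2, 1)], [(0, 2), (1, 2), (3, 1)]],
  [[(3, 1)], [(0, 1), (1, 1), (2, 1)]]]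

lemma tab9_ok : ∀ g, ∀ R ∈ tab9 g, (R.map fun x => x.2 • G9.col x.1).sum = G9.col g := by
  decide +kernel

lemma tab4_ok : ∀ g, ∀ R ∈ tab4 g, (R.map fun x => x.2 • G4.col x.1).sum = G4.col g := by
  decide +kernel

lemma srv9 : ∀ b0 b1 : Fin 9, b0 ≤ b1 → ∀ b2, b1 ≤ b2 → ∀ b3, b2 ≤ b3 → ∀ b4, b3 ≤ b4 →
    srv tab9 [b0, b1, b2, b3, b4] [] = true := by
  decide +kernel

lemma srv4 : ∀ b0 b1 : Fin 4, srv tab4 [b0, b1] [] = true := by
  decide +kernel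

lemma batch9 : Batch 5 G9 := by
  intro a
  apply serves_perm (Tuple.sort a)
  have hm := Tuple.monotone_sort a
  set b := a ∘ Tuple.sort a with hb
  obtain ⟨R, h1, -, h3⟩ := srv_sound tab9_ok 5 b [] (by
    have := srv9 (b 0) (b 1) (hm (by decide)) (b 2) (hm (by decide)) (b 3) (hm (by decide)) (b 4)
      (hm (by decide))
    rw [← this]
    congr 1)
  exact ⟨R, h1, h3⟩

lemma batch4 : Batch 2 G4 := by
  intro a
  obtain ⟨R, h1, -, h3⟩ := srv_sound tab4_ok 2 a [] (by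
    have := srv4 (a 0) (a 1)
    rw [← this]
    congr 1)
  exact ⟨R, h1, h3⟩

lemma rank9 : G9.rank = 3 := by
  apply span_of_basis
  have h : ∀ j, G9.col j ∈ Submodule.span (ZMod 3) (Set.range G9.col) := fun j =>
    Submodule.subset_span ⟨j, rfl⟩
  have e0 : (Pi.single 0 1 : Fin 3 → ZMod 3) = G9.col 3 - G9.col 0 := by decide
  have e1 : (Pi.single 1 1 : Fin 3 → ZMod 3) = G9.col 1 - G9.col 0 := by decide
  have e2 : (Pi.single 2 1 : Fin 3 → ZMod 3) = G9.col 0 := by decide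
  intro i
  fin_cases i
  · change (Pi.single 0 1 : Fin 3 → ZMod 3) ∈ _
    rw [e0]; exact Submodule.sub_mem _ (h 3) (h 0)
  · change (Pi.single 1 1 : Fin 3 → ZMod 3) ∈ _
    rw [e1]; exact Submodule.sub_mem _ (h 1) (h 0)
  · change (Pi.single 2 1 : Fin 3 → ZMod 3) ∈ _
    rw [e2]; exact h 0

lemma rank4 : G4.rank = 3 := by
  apply span_of_basis
  have h : ∀ j, G4.col j ∈ Submodule.span (ZMod 3) (Set.range G4.col) := fun j =>
    Submodule.subset_span ⟨j, rfl⟩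
  have e0 : (Pi.single 0 1 : Fin 3 → ZMod 3) = G4.col 0 := by decide
  have e1 : (Pi.single 1 1 : Fin 3 → ZMod 3) = G4.col 1 := by decide
  have e2 : (Pi.single 2 1 : Fin 3 → ZMod 3) = G4.col 2 := by decide
  intro i
  fin_cases i
  · change (Pi.single 0 1 : Fin 3 → ZMod 3) ∈ _
    rw [e0]; exact h 0
  · change (Pi.single 1 1 : Fin 3 → ZMod 3) ∈ _
    rw [e1]; exact h 1
  · change (Pi.single 2 1 : Fin 3 → ZMod 3) ∈ _
    rw [e2]; exact h 2

/-- seven copies of the identity matrix -/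
def G21 : Matrix (Fin 3) (Fin (7 * 3)) (ZMod 3) := Matrix.of fun i x =>
  if i = (finProdFinEquiv.symm x).2 then 1 else 0

lemma batch21 : Batch 7 G21 := by
  intro a
  refine ⟨fun s => {finProdFinEquiv (s, (finProdFinEquiv.symm (a s)).2)}, ?_, ?_⟩
  · intro i j hij
    rw [Finset.disjoint_singleton]
    intro h
    have := finProdFinEquiv.injective h
    exact hij (Prod.ext_iff.1 this).1
  · intro s
    apply Submodule.subset_span
    refine ⟨finProdFinEquiv (s, (finProdFinEquiv.symm (a s)).2), by simp, ?_⟩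
    ext i
    simp [Matrix.col, G21]

lemma rank21 : G21.rank = 3 := by
  apply span_of_basis
  intro i
  apply Submodule.subset_span
  refine ⟨finProdFinEquiv (0, i), ?_⟩
  ext j
  simp [Matrix.col, G21, Pi.single_apply]

end Pool.Agent.Asp200
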