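import Mathlib

/-!
# The weights on the projective plane of order three

Helper file for `MP_821f63_lc`. The points and the lines of the plane are indexed by `ZMod 13`; the
line `l` consists of the points `l`, `l + 1`, `l + 3`, `l + 9`.
-/

namespace Pool.Agent.Asp200

/-- the maximal number of disjoint pairs of points of different classes, for three classes of the
sizes `x`, `y`, `z` -/
def mp (x y z : ℕ) : ℕ := min ((x + y + z) / 2) (min (x + y) (min (y + z) (x + z)))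

/-- three balanced classes -/
def bal (x y z : ℕ) : Prop := (x + y + z) % 2 = 0 ∧ 2 * x ≤ x + y + z ∧ 2 * y ≤ x + y + z ∧
  2 * z ≤ x + y + z

instance (x y z : ℕ) : Decidable (bal x y z) := by unfold bal; infer_instance

/-- the condition on the weights of a line -/
def lok (a b c d : ℕ) : Prop := a + b + c + d ≤ 6 ∧ (a = 1 → bal b c d) ∧ (b = 1 → bal a c d) ∧
  (c = 1 → bal a b d) ∧ (d = 1 → bal a b c)

instance (a b c d : ℕ) : Decidable (lok a b c d) := by unfold lok; infer_instance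

/-- the condition on a point of weight `a`, for the other points of the four lines through it -/
def pok (a x1 x2 x3 x4 x5 x6 x7 x8 x9 x10 x11 x12 : ℕ) : Prop :=
  1 ≤ a → 8 ≤ 2 * a + (mp x1 x2 x3 + mp x4 x5 x6 + mp x7 x8 x9 + mp x10 x11 x12)

instance (a x1 x2 x3 x4 x5 x6 x7 x8 x9 x10 x11 x12 : ℕ) :
    Decidable (pok a x1 x2 x3 x4 x5 x6 x7 x8 x9 x10 x11 x12) := by unfold pok; infer_instance

/-- the possible weights of the other points of a line through a point of weight one -/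
def pat : List (ℕ × ℕ × ℕ) := [(0, 0, 0), (1, 1, 0), (1, 0, 1), (0, 1, 1), (2, 2, 0), (2, 0, 2),
  (0, 2, 2), (2, 1, 1), (1, 2, 1), (1, 1, 2)]

lemma mem_pat {x y z : ℕ} (h : bal x y z) (h' : x + y + z ≤ 5) : (x, y, z) ∈ pat := by
  obtain ⟨h1, h2, h3, h4⟩ := h
  have hx : x ≤ 2 := by omega
  have hy : y ≤ 2 := by omega
  have hz : z ≤ 2 := by omega
  interval_cases x <;> interval_cases y <;> interval_cases z <;> simp_all [pat]

/-- all conditions, for a point `0` of weight one -/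
def Chk (t u v w : ℕ × ℕ × ℕ) : Prop :=
  (t.1 + t.2.1 + t.2.2) + (u.1 + u.2.1 + u.2.2) + (v.1 + v.2.1 + v.2.2) + (w.1 + w.2.1 + w.2.2) = 12 ∧
  lok (t.1) (u.2.1) (w.1) (v.1) ∧
  lok (u.2.1) (t.2.1) (w.2.1) (v.2.1) ∧
  lok (t.2.1) (w.1) (v.2.2) (u.1) ∧
  lok (w.2.1) (v.2.2) (u.2.2) (t.1) ∧
  lok (v.2.2) (w.2.2) (t.2.2) (u.2.1) ∧
  lok (w.2.2) (u.2.2) (v.1) (t.2.1) ∧
  lok (u.2.2) (t.2.2) (v.2.1) (w.1) ∧
  lok (t.2.2) (v.1) (u.1) (w.2.1) ∧
  lok (v.2.1) (u.1) (t.1) (w.2.2) ∧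
  pok (t.1) (u.2.1) (w.1) (v.1) 1 (t.2.1) (t.2.2) (v.2.1) (u.1) (w.2.2) (w.2.1) (v.2.2) (u.2.2) ∧
  pok (u.2.1) (t.2.1) (w.2.1) (v.2.1) (t.1) (w.1) (v.1) (u.1) 1 (u.2.2) (v.2.2) (w.2.2) (t.2.2) ∧
  pok (t.2.1) (w.1) (v.2.2) (u.1) (u.2.1) (w.2.1) (v.2.1) 1 (t.1) (t.2.2) (w.2.2) (u.2.2) (v.1) ∧
  pok (w.1) (w.2.1) (w.2.2) 1 (t.2.1) (v.2.2) (u.1) (t.1) (u.2.1) (v.1) (u.2.2) (t.2.2) (v.2.1) ∧
  pok (w.2.1) (v.2.2) (u.2.2) (t.1) (w.1) (w.2.2) 1 (u.2.1) (t.2.1) (v.2.1) (t.2.2) (v.1) (u.1) ∧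
  pok (v.2.2) (w.2.2) (t.2.2) (u.2.1) (w.2.1) (u.2.2) (t.1) (t.2.1) (w.1) (u.1) (v.1) (v.2.1) 1 ∧
  pok (w.2.2) (u.2.2) (v.1) (t.2.1) (v.2.2) (t.2.2) (u.2.1) (w.1) (w.2.1) 1 (v.2.1) (u.1) (t.1) ∧
  pok (u.2.2) (t.2.2) (v.2.1) (w.1) (w.2.2) (v.1) (t.2.1) (w.2.1) (v.2.2) (t.1) (u.1) 1 (u.2.1) ∧
  pok (t.2.2) (v.1) (u.1) (w.2.1) (u.2.2) (v.2.1) (w.1) (v.2.2) (w.2.2) (u.2.1) 1 (t.1) (t.2.1) ∧
  pok (v.1) (v.2.1) 1 (v.2.2) (t.2.2) (u.1) (w.2.1) (w.2.2) (u.2.2) (t.2.1) (t.1) (u.2.1) (w.1) ∧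
  pok (v.2.1) (u.1) (t.1) (w.2.2) (v.1) 1 (v.2.2) (u.2.2) (t.2.2) (w.1) (u.2.1) (t.2.1) (w.2.1) ∧
  pok (u.1) 1 (u.2.1) (u.2.2) (v.2.1) (t.1) (w.2.2) (t.2.2) (v.1) (w.2.1) (t.2.1) (w.1) (v.2.2)

instance (t u v w : ℕ × ℕ × ℕ) : Decidable (Chk t u v w) := by unfold Chk; infer_instance

lemma no_chk : ∀ t ∈ pat, ∀ u ∈ pat, ∀ v ∈ pat, ∀ w ∈ pat, ¬ Chk t u v w := by
  decide +kernel

/-- the weight of a line -/
def wl (m : ZMod 13 → ℕ) (l : ZMod 13) : ℕ := m l + m (l + 1) + m (l + 3) + m (l + 9)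

/-- the bound for the number of pairs at a point -/
def pr (m : ZMod 13 → ℕ) (q : ZMod 13) : ℕ := mp (m (q + 1)) (m (q + 3)) (m (q + 9)) +
  mp (m (q + 12)) (m (q + 2)) (m (q + 8)) + mp (m (q + 10)) (m (q + 11)) (m (q + 6)) +
  mp (m (q + 4)) (m (q + 5)) (m (q + 7))

lemma sum_eq (m : ZMod 13 → ℕ) : ∑ q, m q = m 0 + m 1 + m 2 + m 3 + m 4 + m 5 + m 6 + m 7 +
    m 8 + m 9 + m 10 + m 11 + m 12 := by
  have h : ∀ f : Fin 13 → ℕ, ∑ q, f q = f 0 + f 1 + f 2 + f 3 + f 4 + f 5 + f 6 + f 7 +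
      f 8 + f 9 + f 10 + f 11 + f 12 := by
    intro f
    simp [Fin.sum_univ_succ]
    ring_nf
  exact h m

lemma sum_shift (m : ZMod 13 → ℕ) (q : ZMod 13) : ∑ x, m x = m q +
    ((m (q + 1) + m (q + 3) + m (q + 9)) + (m (q + 12) + m (q + 2) + m (q + 8)) +
    (m (q + 10) + m (q + 11) + m (q + 6)) + (m (q + 4) + m (q + 5) + m (q + 7))) := by
  have h1 : ∑ x, m x = ∑ x, m (q + x) := (Equiv.sum_comp (Equiv.addLeft q) m).symm
  rw [h1, sum_eq (fun x => m (q + x)), add_zero]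
  ring

lemma mp_le (x y z : ℕ) : 2 * mp x y z ≤ x + y + z ∧ mp x y z ≤ x + y ∧ mp x y z ≤ y + z ∧
    mp x y z ≤ x + z := by
  unfold mp
  omega

lemma mp_zero {x y z : ℕ} (h : x + y + z ≤ 3) (hx : x ≠ 1) (hy : y ≠ 1) (hz : z ≠ 1) :
    mp x y z = 0 := by
  unfold mp
  omega

lemma bal_of_mp {x y z : ℕ} (h : x + y + z ≤ 2 * mp x y z) : bal x y z := by
  have := mp_le x y z
  refine ⟨?_, ?_, ?_, ?_⟩ <;> omega

lemma wl_zero (m : ZMod 13 → ℕ) (q : ZMod 13) :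
    wl m q = m q + (m (q + 1) + m (q + 3) + m (q + 9)) := by
  unfold wl; ring

lemma wl_one (m : ZMod 13 → ℕ) (q : ZMod 13) :
    wl m (q + 12) = m q + (m (q + 12) + m (q + 2) + m (q + 8)) := by
  unfold wl
  rw [add_assoc q 12 1, add_assoc q 12 3, add_assoc q 12 9, show (12 + 1 : ZMod 13) = 0 from rfl,
    show (12 + 3 : ZMod 13) = 2 from rfl, show (12 + 9 : ZMod 13) = 8 from rfl, add_zero]
  ring

lemma wl_three (m : ZMod 13 → ℕ) (q : ZMod 13) :
    wl m (q + 10) = m q + (m (q + 10) + m (q + 11) + m (q + 6)) := by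
  unfold wl
  rw [add_assoc q 10 1, add_assoc q 10 3, add_assoc q 10 9, show (10 + 1 : ZMod 13) = 11 from rfl,
    show (10 + 3 : ZMod 13) = 0 from rfl, show (10 + 9 : ZMod 13) = 6 from rfl, add_zero]
  ring

lemma wl_nine (m : ZMod 13 → ℕ) (q : ZMod 13) :
    wl m (q + 4) = m q + (m (q + 4) + m (q + 5) + m (q + 7)) := by
  unfold wl
  rw [add_assoc q 4 1, add_assoc q 4 3, add_assoc q 4 9, show (4 + 1 : ZMod 13) = 5 from rfl,
    show (4 + 3 : ZMod 13) = 7 from rfl, show (4 + 9 : ZMod 13) = 0 from rfl, add_zero]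
  ring

section

variable {m : ZMod 13 → ℕ} {N : ℕ}

lemma pr_zero (hL : ∀ l, wl m l + 7 ≤ N) {q : ZMod 13} (h : N ≤ m q + 10)
    (h1 : ∀ x, m x ≠ 1) : pr m q = 0 := by
  have e0 := hL q
  have e1 := hL (q + 12)
  have e2 := hL (q + 10)
  have e3 := hL (q + 4)
  rw [wl_zero] at e0
  rw [wl_one] at e1
  rw [wl_three] at e2
  rw [wl_nine] at e3
  unfold pr
  rw [mp_zero (by omega) (h1 _) (h1 _) (h1 _), mp_zero (by omega) (h1 _) (h1 _) (h1 _),
    mp_zero (by omega) (h1 _) (h1 _) (h1 _), mp_zero (by omega) (h1 _) (h1 _) (h1 _)]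

lemma three_mul_le (hsum : ∑ q, m q = N) (hL : ∀ l, wl m l + 7 ≤ N) (q : ZMod 13) :
    3 * m q + 28 ≤ 3 * N := by
  have e0 := hL q
  have e1 := hL (q + 12)
  have e2 := hL (q + 10)
  have e3 := hL (q + 4)
  rw [wl_zero] at e0
  rw [wl_one] at e1
  rw [wl_three] at e2
  rw [wl_nine] at e3
  have hs := sum_shift m q
  omega

lemma bal_lines (hN : N ≤ 13) (hsum : ∑ q, m q = N)
    (hP : ∀ q, 1 ≤ m q → 21 ≤ N + 2 * m q + pr m q) {q : ZMod 13} (hq : m q = 1) : N = 13 ∧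
    bal (m (q + 1)) (m (q + 3)) (m (q + 9)) ∧ bal (m (q + 12)) (m (q + 2)) (m (q + 8)) ∧
    bal (m (q + 10)) (m (q + 11)) (m (q + 6)) ∧ bal (m (q + 4)) (m (q + 5)) (m (q + 7)) := by
  have hs := sum_shift m q
  have hp := hP q (by omega)
  unfold pr at hp
  have e0 := mp_le (m (q + 1)) (m (q + 3)) (m (q + 9))
  have e1 := mp_le (m (q + 12)) (m (q + 2)) (m (q + 8))
  have e2 := mp_le (m (q + 10)) (m (q + 11)) (m (q + 6))
  have e3 := mp_le (m (q + 4)) (m (q + 5)) (m (q + 7))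
  refine ⟨by omega, bal_of_mp (by omega), bal_of_mp (by omega), bal_of_mp (by omega),
    bal_of_mp (by omega)⟩

/-- no weights with `m 0 = 1` -/
lemma no_weights_one (hsum : ∑ q, m q = 13) (hL : ∀ l, wl m l + 7 ≤ 13)
    (hP : ∀ q, 1 ≤ m q → 21 ≤ 13 + 2 * m q + pr m q) (h0 : m 0 = 1) : False := by
  have hb := fun q (hq : m q = 1) => bal_lines le_rfl hsum hP hq
  have hlok : ∀ l, lok (m l) (m (l + 1)) (m (l + 3)) (m (l + 9)) := by
    intro l
    refine ⟨?_, fun h => (hb l h).2.1, fun h => ?_, fun h => ?_, fun h => ?_⟩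
    · have := hL l
      unfold wl at this
      omega
    · have h2 := (hb _ h).2.2.1
      rw [add_assoc l 1 12, add_assoc l 1 2, add_assoc l 1 8, show (1 + 12 : ZMod 13) = 0 from rfl,
        show (1 + 2 : ZMod 13) = 3 from rfl, show (1 + 8 : ZMod 13) = 9 from rfl, add_zero] at h2
      exact h2
    · have h2 := (hb _ h).2.2.2.1
      rw [add_assoc l 3 10, add_assoc l 3 11, add_assoc l 3 6,
        show (3 + 10 : ZMod 13) = 0 from rfl, show (3 + 11 : ZMod 13) = 1 from rfl,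
        show (3 + 6 : ZMod 13) = 9 from rfl, add_zero] at h2
      exact h2
    · have h2 := (hb _ h).2.2.2.2
      rw [add_assoc l 9 4, add_assoc l 9 5, add_assoc l 9 7,
        show (9 + 4 : ZMod 13) = 0 from rfl, show (9 + 5 : ZMod 13) = 1 from rfl,
        show (9 + 7 : ZMod 13) = 3 from rfl, add_zero] at h2
      exact h2
  have hpok : ∀ q, pok (m q) (m (q + 1)) (m (q + 3)) (m (q + 9)) (m (q + 12)) (m (q + 2))
      (m (q + 8)) (m (q + 10)) (m (q + 11)) (m (q + 6)) (m (q + 4)) (m (q + 5)) (m (q + 7)) := by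
    intro q hq
    have := hP q hq
    unfold pr at this
    omega
  obtain ⟨-, h1, h2, h3, h4⟩ := hb 0 h0
  have hw0 := hL 0
  have hw1 := hL (0 + 12)
  have hw2 := hL (0 + 10)
  have hw3 := hL (0 + 4)
  rw [wl_zero, h0] at hw0
  rw [wl_one, h0] at hw1
  rw [wl_three, h0] at hw2
  rw [wl_nine, h0] at hw3
  simp only [zero_add] at h1 h2 h3 h4 hw0 hw1 hw2 hw3
  have hs := sum_eq m
  refine no_chk _ (mem_pat h1 (by omega)) _ (mem_pat h2 (by omega)) _ (mem_pat h3 (by omega)) _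
    (mem_pat h4 (by omega)) ?_
  unfold Chk
  simp only
  refine ⟨by omega, ?_⟩
  have k1 := hlok 1
  rw [show (1 + 1 : ZMod 13) = 2 from rfl, show (1 + 3 : ZMod 13) = 4 from rfl, show (1 + 9 : ZMod 13) = 10 from rfl] at k1
  have k2 := hlok 2
  rw [show (2 + 1 : ZMod 13) = 3 from rfl, show (2 + 3 : ZMod 13) = 5 from rfl, show (2 + 9 : ZMod 13) = 11 from rfl] at k2
  have k3 := hlok 3
  rw [show (3 + 1 : ZMod 13) = 4 from rfl, show (3 + 3 : ZMod 13) = 6 from rfl, show (3 + 9 : ZMod 13) = 12 from rfl] at k3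
  have k5 := hlok 5
  rw [show (5 + 1 : ZMod 13) = 6 from rfl, show (5 + 3 : ZMod 13) = 8 from rfl, show (5 + 9 : ZMod 13) = 1 from rfl] at k5
  have k6 := hlok 6
  rw [show (6 + 1 : ZMod 13) = 7 from rfl, show (6 + 3 : ZMod 13) = 9 from rfl, show (6 + 9 : ZMod 13) = 2 from rfl] at k6
  have k7 := hlok 7
  rw [show (7 + 1 : ZMod 13) = 8 from rfl, show (7 + 3 : ZMod 13) = 10 from rfl, show (7 + 9 : ZMod 13) = 3 from rfl] at k7
  have k8 := hlok 8
  rw [show (8 + 1 : ZMod 13) = 9 from rfl, show (8 + 3 : ZMod 13) = 11 from rfl, show (8 + 9 : ZMod 13) = 4 from rfl] at k8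
  have k9 := hlok 9
  rw [show (9 + 1 : ZMod 13) = 10 from rfl, show (9 + 3 : ZMod 13) = 12 from rfl, show (9 + 9 : ZMod 13) = 5 from rfl] at k9
  have k11 := hlok 11
  rw [show (11 + 1 : ZMod 13) = 12 from rfl, show (11 + 3 : ZMod 13) = 1 from rfl, show (11 + 9 : ZMod 13) = 7 from rfl] at k11
  have p1 := hpok 1
  rw [show (1 + 1 : ZMod 13) = 2 from rfl, show (1 + 3 : ZMod 13) = 4 from rfl, show (1 + 9 : ZMod 13) = 10 from rfl, show (1 + 12 : ZMod 13) = 0 from rfl, show (1 + 2 : ZMod 13) = 3 from rfl, show (1 + 8 : ZMod 13) = 9 from rfl, show (1 + 10 : ZMod 13) = 11 from rfl, show (1 + 11 : ZMod 13) = 12 from rfl, show (1 + 6 : ZMod 13) = 7 from rfl, show (1 + 4 : ZMod 13) = 5 from rfl, show (1 + 5 : ZMod 13) = 6 from rfl, show (1 + 7 : ZMod 13) = 8 from rfl, h0] at p1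
  have p2 := hpok 2
  rw [show (2 + 1 : ZMod 13) = 3 from rfl, show (2 + 3 : ZMod 13) = 5 from rfl, show (2 + 9 : ZMod 13) = 11 from rfl, show (2 + 12 : ZMod 13) = 1 from rfl, show (2 + 2 : ZMod 13) = 4 from rfl, show (2 + 8 : ZMod 13) = 10 from rfl, show (2 + 10 : ZMod 13) = 12 from rfl, show (2 + 11 : ZMod 13) = 0 from rfl, show (2 + 6 : ZMod 13) = 8 from rfl, show (2 + 4 : ZMod 13) = 6 from rfl, show (2 + 5 : ZMod 13) = 7 from rfl, show (2 + 7 : ZMod 13) = 9 from rfl, h0] at p2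
  have p3 := hpok 3
  rw [show (3 + 1 : ZMod 13) = 4 from rfl, show (3 + 3 : ZMod 13) = 6 from rfl, show (3 + 9 : ZMod 13) = 12 from rfl, show (3 + 12 : ZMod 13) = 2 from rfl, show (3 + 2 : ZMod 13) = 5 from rfl, show (3 + 8 : ZMod 13) = 11 from rfl, show (3 + 10 : ZMod 13) = 0 from rfl, show (3 + 11 : ZMod 13) = 1 from rfl, show (3 + 6 : ZMod 13) = 9 from rfl, show (3 + 4 : ZMod 13) = 7 from rfl, show (3 + 5 : ZMod 13) = 8 from rfl, show (3 + 7 : ZMod 13) = 10 from rfl, h0] at p3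
  have p4 := hpok 4
  rw [show (4 + 1 : ZMod 13) = 5 from rfl, show (4 + 3 : ZMod 13) = 7 from rfl, show (4 + 9 : ZMod 13) = 0 from rfl, show (4 + 12 : ZMod 13) = 3 from rfl, show (4 + 2 : ZMod 13) = 6 from rfl, show (4 + 8 : ZMod 13) = 12 from rfl, show (4 + 10 : ZMod 13) = 1 from rfl, show (4 + 11 : ZMod 13) = 2 from rfl, show (4 + 6 : ZMod 13) = 10 from rfl, show (4 + 4 : ZMod 13) = 8 from rfl, show (4 + 5 : ZMod 13) = 9 from rfl, show (4 + 7 : ZMod 13) = 11 from rfl, h0] at p4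
  have p5 := hpok 5
  rw [show (5 + 1 : ZMod 13) = 6 from rfl, show (5 + 3 : ZMod 13) = 8 from rfl, show (5 + 9 : ZMod 13) = 1 from rfl, show (5 + 12 : ZMod 13) = 4 from rfl, show (5 + 2 : ZMod 13) = 7 from rfl, show (5 + 8 : ZMod 13) = 0 from rfl, show (5 + 10 : ZMod 13) = 2 from rfl, show (5 + 11 : ZMod 13) = 3 from rfl, show (5 + 6 : ZMod 13) = 11 from rfl, show (5 + 4 : ZMod 13) = 9 from rfl, show (5 + 5 : ZMod 13) = 10 from rfl, show (5 + 7 : ZMod 13) = 12 from rfl, h0] at p5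
  have p6 := hpok 6
  rw [show (6 + 1 : ZMod 13) = 7 from rfl, show (6 + 3 : ZMod 13) = 9 from rfl, show (6 + 9 : ZMod 13) = 2 from rfl, show (6 + 12 : ZMod 13) = 5 from rfl, show (6 + 2 : ZMod 13) = 8 from rfl, show (6 + 8 : ZMod 13) = 1 from rfl, show (6 + 10 : ZMod 13) = 3 from rfl, show (6 + 11 : ZMod 13) = 4 from rfl, show (6 + 6 : ZMod 13) = 12 from rfl, show (6 + 4 : ZMod 13) = 10 from rfl, show (6 + 5 : ZMod 13) = 11 from rfl, show (6 + 7 : ZMod 13) = 0 from rfl, h0] at p6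
  have p7 := hpok 7
  rw [show (7 + 1 : ZMod 13) = 8 from rfl, show (7 + 3 : ZMod 13) = 10 from rfl, show (7 + 9 : ZMod 13) = 3 from rfl, show (7 + 12 : ZMod 13) = 6 from rfl, show (7 + 2 : ZMod 13) = 9 from rfl, show (7 + 8 : ZMod 13) = 2 from rfl, show (7 + 10 : ZMod 13) = 4 from rfl, show (7 + 11 : ZMod 13) = 5 from rfl, show (7 + 6 : ZMod 13) = 0 from rfl, show (7 + 4 : ZMod 13) = 11 from rfl, show (7 + 5 : ZMod 13) = 12 from rfl, show (7 + 7 : ZMod 13) = 1 from rfl, h0] at p7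
  have p8 := hpok 8
  rw [show (8 + 1 : ZMod 13) = 9 from rfl, show (8 + 3 : ZMod 13) = 11 from rfl, show (8 + 9 : ZMod 13) = 4 from rfl, show (8 + 12 : ZMod 13) = 7 from rfl, show (8 + 2 : ZMod 13) = 10 from rfl, show (8 + 8 : ZMod 13) = 3 from rfl, show (8 + 10 : ZMod 13) = 5 from rfl, show (8 + 11 : ZMod 13) = 6 from rfl, show (8 + 6 : ZMod 13) = 1 from rfl, show (8 + 4 : ZMod 13) = 12 from rfl, show (8 + 5 : ZMod 13) = 0 from rfl, show (8 + 7 : ZMod 13) = 2 from rfl, h0] at p8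
  have p9 := hpok 9
  rw [show (9 + 1 : ZMod 13) = 10 from rfl, show (9 + 3 : ZMod 13) = 12 from rfl, show (9 + 9 : ZMod 13) = 5 from rfl, show (9 + 12 : ZMod 13) = 8 from rfl, show (9 + 2 : ZMod 13) = 11 from rfl, show (9 + 8 : ZMod 13) = 4 from rfl, show (9 + 10 : ZMod 13) = 6 from rfl, show (9 + 11 : ZMod 13) = 7 from rfl, show (9 + 6 : ZMod 13) = 2 from rfl, show (9 + 4 : ZMod 13) = 0 from rfl, show (9 + 5 : ZMod 13) = 1 from rfl, show (9 + 7 : ZMod 13) = 3 from rfl, h0] at p9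
  have p10 := hpok 10
  rw [show (10 + 1 : ZMod 13) = 11 from rfl, show (10 + 3 : ZMod 13) = 0 from rfl, show (10 + 9 : ZMod 13) = 6 from rfl, show (10 + 12 : ZMod 13) = 9 from rfl, show (10 + 2 : ZMod 13) = 12 from rfl, show (10 + 8 : ZMod 13) = 5 from rfl, show (10 + 10 : ZMod 13) = 7 from rfl, show (10 + 11 : ZMod 13) = 8 from rfl, show (10 + 6 : ZMod 13) = 3 from rfl, show (10 + 4 : ZMod 13) = 1 from rfl, show (10 + 5 : ZMod 13) = 2 from rfl, show (10 + 7 : ZMod 13) = 4 from rfl, h0] at p10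
  have p11 := hpok 11
  rw [show (11 + 1 : ZMod 13) = 12 from rfl, show (11 + 3 : ZMod 13) = 1 from rfl, show (11 + 9 : ZMod 13) = 7 from rfl, show (11 + 12 : ZMod 13) = 10 from rfl, show (11 + 2 : ZMod 13) = 0 from rfl, show (11 + 8 : ZMod 13) = 6 from rfl, show (11 + 10 : ZMod 13) = 8 from rfl, show (11 + 11 : ZMod 13) = 9 from rfl, show (11 + 6 : ZMod 13) = 4 from rfl, show (11 + 4 : ZMod 13) = 2 from rfl, show (11 + 5 : ZMod 13) = 3 from rfl, show (11 + 7 : ZMod 13) = 5 from rfl, h0] at p11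
  have p12 := hpok 12
  rw [show (12 + 1 : ZMod 13) = 0 from rfl, show (12 + 3 : ZMod 13) = 2 from rfl, show (12 + 9 : ZMod 13) = 8 from rfl, show (12 + 12 : ZMod 13) = 11 from rfl, show (12 + 2 : ZMod 13) = 1 from rfl, show (12 + 8 : ZMod 13) = 7 from rfl, show (12 + 10 : ZMod 13) = 9 from rfl, show (12 + 11 : ZMod 13) = 10 from rfl, show (12 + 6 : ZMod 13) = 5 from rfl, show (12 + 4 : ZMod 13) = 3 from rfl, show (12 + 5 : ZMod 13) = 4 from rfl, show (12 + 7 : ZMod 13) = 6 from rfl, h0] at p12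
  exact ⟨k1, k2, k3, k5, k6, k7, k8, k9, k11, p1, p2, p3, p4, p5, p6, p7, p8, p9, p10, p11, p12⟩

/-- there are no weights with these properties -/
theorem no_weights (hN : N ≤ 13) (hsum : ∑ q, m q = N) (hL : ∀ l, wl m l + 7 ≤ N)
    (hP : ∀ q, 1 ≤ m q → 21 ≤ N + 2 * m q + pr m q) : False := by
  by_cases h1 : ∃ g, m g = 1
  · obtain ⟨g, hg⟩ := h1
    have hN' := (bal_lines hN hsum hP hg).1
    subst hN'
    refine no_weights_one (m := fun x => m (g + x)) ?_ ?_ ?_ ?_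
    · exact (Equiv.sum_comp (Equiv.addLeft g) m).trans hsum
    · intro l
      have := hL (g + l)
      unfold wl at this ⊢
      simp only [add_assoc] at this ⊢
      exact this
    · intro q hq
      have := hP (g + q) hq
      unfold pr at this ⊢
      simp only [add_assoc] at this ⊢
      exact this
    · simpa using hg
  · push Not at h1
    have hz : ∀ q, m q ≠ 0 → False := by
      intro q hq
      have h2 := three_mul_le hsum hL q
      have h3 := hP q (by omega)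
      have h4 := h1 q
      by_cases h5 : N ≤ m q + 10
      · rw [pr_zero hL h5 h1] at h3
        omega
      · -- `N = 13` and `m q = 2`
        have hN' : N = 13 := by omega
        subst hN'
        -- all weights are at most three, and some weight is odd
        have h6 : ∃ x, m x = 3 := by
          by_contra hcon
          push Not at hcon
          have h7 : 2 ∣ ∑ q, m q := by
            refine Finset.dvd_sum fun x _ => ?_
            have := three_mul_le hsum hL x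
            have := hcon x
            have := h1 x
            omega
          rw [hsum] at h7
          omega
        obtain ⟨x, hx⟩ := h6
        have h7 := hP x (by omega)
        rw [pr_zero hL (by omega) h1] at h7
        omega
    have h2 : ∑ q, m q = 0 := Finset.sum_eq_zero fun q _ => by
      by_contra h
      exact hz q h
    have := hL 0
    omega

end

end Pool.Agent.Asp200
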